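import Pool.Agent.H62.EF.Defs

/-!
Module EF4 (helper23): the standard labelling has exactly one simplex with nonzero value, and
its value is a unit.
-/

namespace Pool.Agent.H23.EF
open Finset Pool.Agent.H62.EF

lemma inj_of_sg {n : ℕ} {a : Fin (n + 1) → Fin (n + 1)} (h : sg a ≠ 0) :
    Function.Injective a := by
  intro i j hij
  by_contra hne
  apply h
  unfold sg
  apply Matrix.det_zero_of_row_eq hne
  ext l
  simp [hij]

lemma sg_unit {n : ℕ} {a : Fin (n + 1) → Fin (n + 1)} (h : Function.Injective a) :
    sg a = 1 ∨ sg a = -1 := by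
  have hb : Function.Bijective a := Finite.injective_iff_bijective.1 h
  have h1 : sg a = ((Equiv.Perm.sign (Equiv.ofBijective a hb) : ℤˣ) : ℤ) := by
    have h2 := Matrix.det_permutation (R := ℤ) (Equiv.ofBijective a hb)
    rw [Int.cast_id] at h2
    rw [← h2]
    unfold sg
    congr 1
    ext i j
    simp [Equiv.Perm.permMatrix, PEquiv.toMatrix_apply, Equiv.toPEquiv_apply, eq_comm]
  rw [h1]
  rcases Int.units_eq_one_or (Equiv.Perm.sign (Equiv.ofBijective a hb)) with h2 | h2
  · left; rw [h2]; rfl
  · right; rw [h2]; rfl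

/-- the position function is injective -/
lemma pos_inj {n d : ℕ} (π : Equiv.Perm (Fin d × Fin n)) {x y : Fin d × Fin n}
    (h : pos π x = pos π y) : x = y := by
  unfold pos at h
  have h1 := Fin.ext h
  exact π.symm.injective (finProdFinEquiv.injective h1)

lemma pos_apply {n d : ℕ} (π : Equiv.Perm (Fin d × Fin n)) (c : Fin d) (j : Fin n) :
    pos π (π (c, j)) = (j : ℕ) + n * (c : ℕ) := by
  unfold pos
  simp [finProdFinEquiv]

lemma of_pos {n d : ℕ} (π : Equiv.Perm (Fin d × Fin n)) (c : Fin d) (j i : Fin n)
    (h : pos π (c, i) = (j : ℕ) + n * (c : ℕ)) : π (c, j) = (c, i) := by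
  apply pos_inj π
  rw [pos_apply, h]

section main
variable {n d : ℕ} (v : V n d) (π : Equiv.Perm (Fin d × Fin n))

lemma path_mono {k l : ℕ} (h : k ≤ l) (i : Fin n) (c : Fin d) :
    path v π k i c ≤ path v π l i c := by
  unfold path
  split_ifs <;> omega

lemma path_le_succ (k l : ℕ) (i : Fin n) (c : Fin d) :
    path v π l i c ≤ path v π k i c + 1 := by
  unfold path
  split_ifs <;> omega

lemma sum_step (k : ℕ) (c : Fin d) :
    (∑ i, path v π (k + 1) i c) ≤ (∑ i, path v π k i c) + 1 ∧
      ((∑ i, path v π (k + 1) i c) ≠ (∑ i, path v π k i c) → ∃ i, pos π (c, i) = k) := by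
  by_cases h : ∃ i, pos π (c, i) = k
  · obtain ⟨i, hi⟩ := h
    refine ⟨?_, fun _ => ⟨i, hi⟩⟩
    have : (∑ l, path v π (k + 1) l c) = ∑ l, (path v π k l c + if l = i then 1 else 0) := by
      apply Finset.sum_congr rfl
      intro l _
      unfold path
      by_cases hl : l = i
      · subst hl
        simp [hi]
      · have : pos π (c, l) ≠ k := by
          intro h2
          apply hl
          have := pos_inj π (h2.trans hi.symm)
          exact (Prod.ext_iff.1 this).2
        simp only [hl, if_false, add_zero]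
        split_ifs <;> omega
    rw [this, Finset.sum_add_distrib]
    simp
  · have h1 : (∑ l, path v π (k + 1) l c) = ∑ l, path v π k l c := by
      apply Finset.sum_congr rfl
      intro l _
      have : pos π (c, l) ≠ k := fun h2 => h ⟨l, h2⟩
      unfold path
      split_ifs <;> omega
    exact ⟨by omega, fun h2 => absurd h1 h2⟩

end main

/-- The standard labelling has only one simplex with nonzero value. -/
theorem EF4a (n d : ℕ) (hn : 2 ≤ n) (g0 : V n d → Fin d → Fin n)
    (hstd : ∀ (v : V n d) (c : Fin d) (i : Fin n), v i c ≤ v (g0 v c) c)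
    (hnear : ∀ v : V n d, Inside 1 v → ∀ (c : Fin d) (i : Fin n), v i c = v (g0 v c) c → i ≤ g0 v c)
    (v : V n d) (π : Equiv.Perm (Fin d × Fin n)) (h : S (lab g0) (path v π) ≠ 0) :
    v = vstar n d ∧ π = pistar n d := by
  classical
  -- injectivity of the labels in each block
  have hinj : ∀ c : Fin d, Function.Injective
      (fun j : Fin (n + 1) => lab g0 (path v π (n * (c : ℕ) + (j : ℕ))) c) := by
    intro c
    apply inj_of_sg
    intro h0
    apply h
    unfold S
    exact Finset.prod_eq_zero (Finset.mem_univ c) h0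
  have hsurj : ∀ c : Fin d, Function.Surjective
      (fun j : Fin (n + 1) => lab g0 (path v π (n * (c : ℕ) + (j : ℕ))) c) :=
    fun c => (Finite.injective_iff_bijective.1 (hinj c)).2
  -- label zero occurs at the first time of the block only
  have hlab0 : ∀ (w : V n d) (c : Fin d), lab g0 w c = 0 ↔ (∑ i, w i c) < 0 := by
    intro w c
    unfold lab
    split_ifs with hs
    · simp [hs]
    · simp [hs]
  have hneg : ∀ c : Fin d, (∑ i, path v π (n * (c : ℕ)) i c) < 0 := by
    intro c
    obtain ⟨j, hj⟩ := hsurj c 0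
    have h1 := (hlab0 _ _).1 hj
    refine lt_of_le_of_lt ?_ h1
    apply Finset.sum_le_sum
    intro i _
    exact path_mono v π (by omega) i c
  have hpos : ∀ (c : Fin d) (j : ℕ), 1 ≤ j → j ≤ n →
      0 ≤ (∑ i, path v π (n * (c : ℕ) + j) i c) := by
    intro c j hj1 hjn
    by_contra hlt
    push Not at hlt
    have h1 : lab g0 (path v π (n * (c : ℕ) + ((⟨j, by omega⟩ : Fin (n + 1)) : ℕ))) c = 0 :=
      (hlab0 _ _).2 hlt
    have h2 : lab g0 (path v π (n * (c : ℕ) + ((0 : Fin (n + 1)) : ℕ))) c = 0 :=
      (hlab0 _ _).2 (by simpa using hneg c)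
    have h3 := hinj c (h1.trans h2.symm)
    have h4 := congrArg Fin.val h3
    simp at h4
    omega
  have hsum1 : ∀ c : Fin d, (∑ i, path v π (n * (c : ℕ) + 1) i c) = 0 := by
    intro c
    have h1 := (sum_step v π (n * (c : ℕ)) c).1
    have h2 := hneg c
    have h3 := hpos c 1 le_rfl (by omega)
    omega
  have hpos0 : ∀ c : Fin d, ∃ i, pos π (c, i) = n * (c : ℕ) := by
    intro c
    apply (sum_step v π (n * (c : ℕ)) c).2
    have h2 := hneg c
    have h3 := hsum1 c
    omega
  -- the labels
  have hL : ∀ (c : Fin d) (j : ℕ), 1 ≤ j → j ≤ n →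
      lab g0 (path v π (n * (c : ℕ) + j)) c = (g0 (path v π (n * (c : ℕ) + j)) c).succ := by
    intro c j hj1 hjn
    unfold lab
    rw [if_neg (not_lt.2 (hpos c j hj1 hjn))]
  -- all entries vanish at time n c + 1
  have hdiff : ∀ (c : Fin d) (i l : Fin n),
      path v π (n * (c : ℕ) + 1) l c ≤ path v π (n * (c : ℕ) + 1) i c + 1 := by
    intro c i l
    obtain ⟨j, hj⟩ := hsurj c i.succ
    have hj0 : 1 ≤ (j : ℕ) := by
      by_contra h0
      have h00 : j = 0 := by
        apply Fin.ext
        have : (j : ℕ) = 0 := by omega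
        rw [this]
        rfl
      subst h00
      have h2 : lab g0 (path v π (n * (c : ℕ) + ((0 : Fin (n + 1)) : ℕ))) c = 0 :=
        (hlab0 _ _).2 (by simpa using hneg c)
      have h3 : (i.succ : Fin (n + 1)) = 0 := hj.symm.trans h2
      exact Fin.succ_ne_zero i h3
    have hjn : (j : ℕ) ≤ n := by omega
    have h1 : (g0 (path v π (n * (c : ℕ) + j)) c).succ = i.succ :=
      (hL c j hj0 hjn).symm.trans hj
    have h2 : g0 (path v π (n * (c : ℕ) + j)) c = i := Fin.succ_injective _ h1
    have h3 := hstd (path v π (n * (c : ℕ) + j)) c l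
    rw [h2] at h3
    have h4 := path_mono v π (show n * (c : ℕ) + 1 ≤ n * (c : ℕ) + j by omega) l c
    have h5 := path_le_succ v π (n * (c : ℕ) + 1) (n * (c : ℕ) + j) i c
    omega
  have hzero : ∀ (c : Fin d) (i : Fin n), path v π (n * (c : ℕ) + 1) i c = 0 := by
    intro c
    have hle : ∀ i : Fin n, path v π (n * (c : ℕ) + 1) i c ≤ 0 := by
      intro l
      by_contra hl
      push Not at hl
      have h1 : ∀ i, 0 ≤ path v π (n * (c : ℕ) + 1) i c := by
        intro i
        have := hdiff c i l
        omega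
      have h2 := (Finset.sum_eq_zero_iff_of_nonneg (fun i _ => h1 i)).1 (hsum1 c) l
        (Finset.mem_univ l)
      omega
    have h2 := (Finset.sum_eq_zero_iff_of_nonpos (fun i _ => hle i)).1 (hsum1 c)
    intro i
    exact h2 i (Finset.mem_univ i)
  have hin : ∀ k, Inside 1 (path v π k) := by
    intro k i c
    have h1 := path_le_succ v π (n * (c : ℕ) + 1) k i c
    have h2 := path_le_succ v π k (n * (c : ℕ) + 1) i c
    have h3 := hzero c i
    rw [abs_le]
    constructor <;> omega
  -- value of the entries in the block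
  have hval : ∀ (c : Fin d) (i : Fin n) (j : ℕ), 1 ≤ j →
      path v π (n * (c : ℕ) + j) i c =
        if n * (c : ℕ) + 1 ≤ pos π (c, i) ∧ pos π (c, i) < n * (c : ℕ) + j then 1 else 0 := by
    intro c i j hj
    have h1 := hzero c i
    unfold path at h1 ⊢
    split_ifs at h1 ⊢ <;> omega
  -- labels of consecutive vertices
  have hne : ∀ (c : Fin d) (j l : ℕ), 1 ≤ j → j ≤ n → 1 ≤ l → l ≤ n → j ≠ l →
      g0 (path v π (n * (c : ℕ) + j)) c ≠ g0 (path v π (n * (c : ℕ) + l)) c := by
    intro c j l hj1 hjn hl1 hln hjl heq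
    apply hjl
    have h1 : lab g0 (path v π (n * (c : ℕ) + ((⟨j, by omega⟩ : Fin (n + 1)) : ℕ))) c =
        lab g0 (path v π (n * (c : ℕ) + ((⟨l, by omega⟩ : Fin (n + 1)) : ℕ))) c := by
      simp only
      rw [hL c j hj1 hjn, hL c l hl1 hln, heq]
    have h2 := hinj c h1
    exact congrArg Fin.val h2
  have hstep : ∀ (c : Fin d) (j : ℕ), j < n → ∃ i, pos π (c, i) = n * (c : ℕ) + j := by
    intro c j hj
    rcases Nat.eq_zero_or_pos j with rfl | hj0
    · simpa using hpos0 c
    by_contra hno
    push Not at hno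
    apply hne c j (j + 1) hj0 (by omega) (by omega) (by omega) (by omega)
    have hsame : ∀ i, path v π (n * (c : ℕ) + j) i c = path v π (n * (c : ℕ) + (j + 1)) i c := by
      intro i
      have := hno i
      unfold path
      split_ifs <;> omega
    set w := path v π (n * (c : ℕ) + j) with hw
    set w' := path v π (n * (c : ℕ) + (j + 1)) with hw'
    have e1 : w (g0 w c) c = w (g0 w' c) c := by
      have h1 := hstd w c (g0 w' c)
      have h2 := hstd w' c (g0 w c)
      rw [← hsame, ← hsame] at h2
      omega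
    apply le_antisymm
    · apply hnear w' (hin _) c
      rw [← hsame, ← hsame, e1]
    · apply hnear w (hin _) c
      exact e1.symm
  -- the order inside a block
  choose σ hσ using hstep
  have hσπ : ∀ (c : Fin d) (j : Fin n), π (c, j) = (c, σ c j j.2) := by
    intro c j
    apply of_pos
    rw [hσ c j j.2]
    omega
  have hσinj : ∀ (c : Fin d) (j l : ℕ) (hj : j < n) (hl : l < n), σ c j hj = σ c l hl → j = l := by
    intro c j l hj hl he
    have h1 := hσ c j hj
    have h2 := hσ c l hl
    rw [he] at h1
    omega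
  -- label at time `n c + 1` is the last index
  have hlast : ∀ (c : Fin d) (i : Fin n), i ≤ g0 (path v π (n * (c : ℕ) + 1)) c := by
    intro c i
    apply hnear _ (hin _) c
    rw [hzero, hzero]
  -- label at later times
  have hlabel : ∀ (c : Fin d) (j : ℕ) (hj1 : 1 ≤ j) (hj : j < n),
      (∀ (l : ℕ) (hl1 : 1 ≤ l) (hl : l < n), l ≤ j →
        σ c l hl ≤ g0 (path v π (n * (c : ℕ) + (j + 1))) c) ∧
      (∃ (l : ℕ) (_ : 1 ≤ l) (hl : l < n), l ≤ j ∧
        g0 (path v π (n * (c : ℕ) + (j + 1))) c = σ c l hl) := by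
    intro c j hj1 hj
    set w := path v π (n * (c : ℕ) + (j + 1)) with hw
    have hvw : ∀ i, w i c =
        if n * (c : ℕ) + 1 ≤ pos π (c, i) ∧ pos π (c, i) < n * (c : ℕ) + (j + 1) then 1 else 0 :=
      fun i => hval c i (j + 1) (by omega)
    have hone : ∀ (l : ℕ) (hl1 : 1 ≤ l) (hl : l < n), l ≤ j → w (σ c l hl) c = 1 := by
      intro l hl1 hl hlj
      rw [hvw, hσ c l hl, if_pos]
      omega
    have hle1 : ∀ i, w i c ≤ 1 := by
      intro i
      have := hin (n * (c : ℕ) + (j + 1)) i c
      rw [abs_le] at this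
      exact this.2
    have hg1 : w (g0 w c) c = 1 := by
      have h1 := hstd w c (σ c 1 (by omega))
      rw [hone 1 le_rfl (by omega) (by omega)] at h1
      have h2 := hle1 (g0 w c)
      omega
    constructor
    · intro l hl1 hl hlj
      apply hnear w (hin _) c
      rw [hone l hl1 hl hlj, hg1]
    · have h1 := hg1
      rw [hvw] at h1
      split_ifs at h1 with h2
      · obtain ⟨h3, h4⟩ := h2
        refine ⟨pos π (c, g0 w c) - n * (c : ℕ), by omega, by omega, by omega, ?_⟩
        have h5 := hσ c (pos π (c, g0 w c) - n * (c : ℕ)) (by omega)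
        have h6 : pos π (c, g0 w c) = pos π (c, σ c (pos π (c, g0 w c) - n * (c : ℕ)) (by omega)) := by
          rw [h5]; omega
        exact (Prod.ext_iff.1 (pos_inj π h6)).2
      · exact absurd h1 (by norm_num)
  -- the label after step `j` is `σ j`
  have hlab_eq : ∀ (c : Fin d) (j : ℕ) (hj1 : 1 ≤ j) (hj : j < n),
      g0 (path v π (n * (c : ℕ) + (j + 1))) c = σ c j hj := by
    intro c j hj1 hj
    obtain ⟨hmax, l, hl1, hl, hlj, hle⟩ := hlabel c j hj1 hj
    rcases Nat.lt_or_ge l j with hlt | hge
    · exfalso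
      -- then the label is the same as after step `j - 1`
      obtain ⟨hmax', l', hl1', hl', hlj', hle'⟩ := hlabel c (j - 1) (by omega) (by omega)
      have h1 := hmax' l hl1 hl (by omega)
      have h2 := hmax l' hl1' hl' (by omega)
      rw [← hle] at h1
      rw [← hle'] at h2
      have h3 := le_antisymm h2 h1
      apply hne c (j - 1 + 1) (j + 1) (by omega) (by omega) (by omega) (by omega) (by omega)
      exact h3
    · have : l = j := le_antisymm hlj hge
      subst this
      exact hle
  have hσmono : ∀ (c : Fin d) (j : ℕ) (hj1 : 1 ≤ j) (hj : j + 1 < n),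
      ((σ c j (by omega) : Fin n) : ℕ) < (σ c (j + 1) hj : Fin n) := by
    intro c j hj1 hj
    have h1 := (hlabel c (j + 1) (by omega) hj).1 j hj1 (by omega) (by omega)
    rw [hlab_eq c (j + 1) (by omega) hj] at h1
    have h2 : σ c j (by omega) ≠ σ c (j + 1) hj := by
      intro h3
      have := hσinj c j (j + 1) _ _ h3
      omega
    exact lt_of_le_of_ne h1 (fun h3 => h2 (Fin.ext h3))
  have hσlt : ∀ (c : Fin d) (j : ℕ) (hj1 : 1 ≤ j) (hj : j < n),
      ((σ c j hj : Fin n) : ℕ) < n - 1 := by
    intro c j hj1 hj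
    have h1 : g0 (path v π (n * (c : ℕ) + 1)) c ≠ σ c j hj := by
      rw [← hlab_eq c j hj1 hj]
      exact hne c 1 (j + 1) le_rfl (by omega) (by omega) (by omega) (by omega)
    have h2 := hlast c (σ c j hj)
    have h3 : σ c j hj < g0 (path v π (n * (c : ℕ) + 1)) c := lt_of_le_of_ne h2 (Ne.symm h1)
    have h4 : ((σ c j hj : Fin n) : ℕ) < (g0 (path v π (n * (c : ℕ) + 1)) c : Fin n) := h3
    have h5 := (g0 (path v π (n * (c : ℕ) + 1)) c).2
    omega
  have hσlow : ∀ (c : Fin d) (j : ℕ) (hj : j + 1 < n), j ≤ ((σ c (j + 1) hj : Fin n) : ℕ) := by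
    intro c j
    induction j with
    | zero => intro hj; omega
    | succ j ih =>
      intro hj
      have h1 := ih (by omega)
      have h2 := hσmono c (j + 1) (by omega) hj
      omega
  have hσup : ∀ (c : Fin d) (k j : ℕ) (hj : j + 1 < n), j + 1 + k = n - 1 →
      ((σ c (j + 1) hj : Fin n) : ℕ) ≤ j := by
    intro c k
    induction k with
    | zero =>
      intro j hj hk
      have := hσlt c (j + 1) (by omega) hj
      omega
    | succ k ih =>
      intro j hj hk
      have h1 := ih (j + 1) (by omega) (by omega)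
      have h2 := hσmono c (j + 1) (by omega) (by omega)
      omega
  have hσeq : ∀ (c : Fin d) (j : ℕ) (hj : j + 1 < n), ((σ c (j + 1) hj : Fin n) : ℕ) = j := by
    intro c j hj
    have h1 := hσlow c j hj
    have h2 := hσup c (n - 1 - (j + 1)) j hj (by omega)
    omega
  have hσ0 : ∀ (c : Fin d), ((σ c 0 (by omega) : Fin n) : ℕ) = n - 1 := by
    intro c
    by_contra hc
    have h1 := (σ c 0 (by omega)).2
    have h2 := hσeq c (σ c 0 (by omega) : Fin n) (by omega)
    have h3 := hσinj c _ _ _ _ (Fin.ext h2)
    omega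
  have hπ : π = pistar n d := by
    have key : ∀ x, (pistar n d).symm (π x) = x := by
      rintro ⟨c, j⟩
      rw [hσπ c j]
      unfold pistar
      simp only [Equiv.symm_symm, Equiv.prodCongr_apply, Prod.map_apply, Equiv.refl_apply,
        Prod.mk.injEq, true_and]
      obtain ⟨m, rfl⟩ : ∃ m, n = m + 1 := ⟨n - 1, by omega⟩
      rw [finRotate_apply]
      apply Fin.ext
      rw [Fin.val_add_one]
      obtain ⟨j, hj⟩ := j
      rcases Nat.eq_zero_or_pos j with rfl | hj0
      · rw [if_pos]
        · apply Fin.ext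
          simpa using hσ0 c
      · obtain ⟨j', rfl⟩ : ∃ j', j = j' + 1 := ⟨j - 1, by omega⟩
        have h1 := hσeq c j' hj
        rw [if_neg]
        · simp only
          rw [h1]
        · intro h2
          have h3 := congrArg Fin.val h2
          rw [h1] at h3
          simp at h3
          omega
    ext1 x
    have := key x
    rw [Equiv.symm_apply_eq] at this
    exact this
  refine ⟨?_, hπ⟩
  funext i c
  have h1 := hzero c i
  unfold path at h1
  have hp : pos π (c, i) < n * (c : ℕ) + 1 ↔ (i : ℕ) + 1 = n := by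
    constructor
    · intro hlt
      by_contra hi
      have h2 := hσeq c (i : ℕ) (by omega)
      have h3 := hσ c ((i : ℕ) + 1) (by omega)
      have h4 : σ c ((i : ℕ) + 1) (by omega) = i := Fin.ext h2
      rw [h4] at h3
      omega
    · intro hi
      have h2 := hσ0 c
      have h3 := hσ c 0 (by omega)
      have h4 : σ c 0 (by omega) = i := Fin.ext (by omega)
      rw [h4] at h3
      omega
  unfold vstar
  by_cases hi : (i : ℕ) + 1 = n
  · rw [if_pos (hp.2 hi)] at h1
    rw [if_pos hi]
    omega
  · rw [if_neg (fun h2 => hi (hp.1 h2))] at h1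
    rw [if_neg hi]
    omega

/-- Its value is a unit. -/
theorem EF4b (n d : ℕ) (hn : 2 ≤ n) (g0 : V n d → Fin d → Fin n)
    (hstd : ∀ (v : V n d) (c : Fin d) (i : Fin n), v i c ≤ v (g0 v c) c)
    (hnear : ∀ v : V n d, Inside 1 v → ∀ (c : Fin d) (i : Fin n), v i c = v (g0 v c) c → i ≤ g0 v c) :
    S (lab g0) (path (vstar n d) (pistar n d)) = 1 ∨
      S (lab g0) (path (vstar n d) (pistar n d)) = -1 := by
  classical
  have hpos : ∀ (c : Fin d) (i : Fin n), pos (pistar n d) (c, i) =
      (if (i : ℕ) + 1 = n then 0 else (i : ℕ) + 1) + n * (c : ℕ) := by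
    intro c i
    unfold pos pistar
    obtain ⟨m, rfl⟩ : ∃ m, n = m + 1 := ⟨n - 1, by omega⟩
    simp only [Equiv.symm_symm, Equiv.prodCongr_apply, Prod.map_apply, Equiv.refl_apply,
      finProdFinEquiv_apply_val, finRotate_apply]
    rw [Fin.val_add_one]
    congr 1
    by_cases hi : i = Fin.last m
    · rw [if_pos hi, if_pos (by rw [hi]; rfl)]
    · rw [if_neg hi, if_neg]
      intro h
      apply hi
      apply Fin.ext
      simp
      omega
  -- entries of the path
  have hval : ∀ (c : Fin d) (i : Fin n) (j : ℕ), j ≤ n →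
      path (vstar n d) (pistar n d) (n * (c : ℕ) + j) i c =
        if j = 0 then (if (i : ℕ) + 1 = n then -1 else 0) else
          (if (i : ℕ) + 1 < j then 1 else 0) := by
    intro c i j hj
    have hi := i.2
    have hp := hpos c i
    unfold path vstar
    split_ifs at hp ⊢ <;> omega
  have hin : ∀ k, Inside 1 (path (vstar n d) (pistar n d) k) := by
    intro k i c
    have h1 := path_le_succ (vstar n d) (pistar n d) (n * (c : ℕ) + 1) k i c
    have h2 := path_le_succ (vstar n d) (pistar n d) k (n * (c : ℕ) + 1) i c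
    have h3 := hval c i 1 (by omega)
    rw [if_neg (by norm_num), if_neg (by omega)] at h3
    rw [abs_le]
    constructor <;> omega
  have hlab : ∀ (c : Fin d) (j : ℕ), j ≤ n →
      ((lab g0 (path (vstar n d) (pistar n d) (n * (c : ℕ) + j)) c : Fin (n + 1)) : ℕ) =
        if j = 0 then 0 else if j = 1 then n else j - 1 := by
    intro c j hj
    set w := path (vstar n d) (pistar n d) (n * (c : ℕ) + j) with hw
    have hvw : ∀ i, w i c = if j = 0 then (if (i : ℕ) + 1 = n then -1 else 0) else
          (if (i : ℕ) + 1 < j then 1 else 0) := fun i => hval c i j hj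
    rcases Nat.eq_zero_or_pos j with hj0 | hj0
    · rw [if_pos hj0]
      have hs : (∑ i, w i c) < 0 := by
        have h1 : (∑ i, w i c) = ∑ i : Fin n, if i = ⟨n - 1, by omega⟩ then (-1 : ℤ) else 0 := by
          apply Finset.sum_congr rfl
          intro i _
          rw [hvw, if_pos hj0]
          congr 1
          apply propext
          constructor
          · intro h
            apply Fin.ext
            simp only
            omega
          · intro h
            rw [h]
            simp only
            omega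
        rw [h1, Finset.sum_ite_eq']
        simp
      unfold lab
      rw [if_pos hs]
      rfl
    · have hs : ¬ (∑ i, w i c) < 0 := by
        rw [not_lt]
        apply Finset.sum_nonneg
        intro i _
        rw [hvw, if_neg (by omega)]
        split_ifs <;> norm_num
      unfold lab
      rw [if_neg hs, if_neg (by omega)]
      simp only [Fin.val_succ]
      have hg := (g0 w c).2
      have hvw1 : ∀ i : Fin n, w i c = if (i : ℕ) + 1 < j then 1 else 0 := by
        intro i
        rw [hvw, if_neg (by omega)]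
      by_cases hj1 : j = 1
      · rw [if_pos hj1]
        have h1 : (⟨n - 1, by omega⟩ : Fin n) ≤ g0 w c := by
          apply hnear w (hin _) c
          rw [hvw1, hvw1, if_neg, if_neg]
          · omega
          · show ¬ (n - 1 + 1 < j)
            omega
        have h2 : n - 1 ≤ (g0 w c : ℕ) := h1
        omega
      · rw [if_neg hj1]
        have h0 : w (⟨j - 2, by omega⟩ : Fin n) c = 1 := by
          rw [hvw1, if_pos]
          show j - 2 + 1 < j
          omega
        have h1 := hstd w c ⟨j - 2, by omega⟩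
        rw [h0] at h1
        have h2 : ((g0 w c : Fin n) : ℕ) + 1 < j := by
          by_contra h3
          rw [hvw1, if_neg h3] at h1
          norm_num at h1
        have h3 : (⟨j - 2, by omega⟩ : Fin n) ≤ g0 w c := by
          apply hnear w (hin _) c
          rw [h0, hvw1, if_pos h2]
        have h4 : j - 2 ≤ (g0 w c : ℕ) := h3
        omega
  have hunit : ∀ c : Fin d, IsUnit (sg (fun j : Fin (n + 1) =>
      lab g0 (path (vstar n d) (pistar n d) (n * (c : ℕ) + (j : ℕ))) c)) := by
    intro c
    rw [Int.isUnit_iff]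
    apply sg_unit
    intro j l hjl
    have h1 := hlab c j (by omega)
    have h2 := hlab c l (by omega)
    simp only at hjl
    rw [hjl] at h1
    rw [h1] at h2
    apply Fin.ext
    have hj := j.2
    have hl := l.2
    split_ifs at h2 <;> omega
  have hS : IsUnit (S (lab g0) (path (vstar n d) (pistar n d))) := by
    unfold S
    refine Finset.prod_induction _ IsUnit (fun a b ha hb => ha.mul hb) isUnit_one ?_
    intro c _
    exact hunit c
  exact Int.isUnit_iff.1 hS

end Pool.Agent.H23.EF
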